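import Pool.Agent.V8H64.GB.Bx

set_option autoImplicit false

/-!
# The Gaussian law for the product of Birch and Swinnerton-Dyer over all elliptic curves

For `y² = x³ + a x + b` let `P(x)` be the product of `#E(F_p) / p` over the primes `p ≤ x` which do
not divide `2 (4 a³ + 27 b²)`.

(1) For the curves with `(a, b)` in any box `(α, α + A] × (c, c + H]`, where `x` is large and only
`A ≥ log log x` and `H ≥ x ^ K` are assumed, `(log P(x) - (log log x) / 2) / √(log log x)` has the
distribution function of the standard normal law, up to `ε`, uniformly in all the data (so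
`log P(x)` has mean `(log log x) / 2` and variance `log log x`).

(2) For a single fixed `a` and `b ∈ (c, c + H]`, `H ≥ x ^ K`, the same is true, uniformly in `a` as
long as the sum of `1 / p` over the primes `p ≤ x` which divide `a` is at most `M` (thus for each
fixed `a ≠ 0`).

Definitions used: in `Pool.Agent.W263.BSD` (file `Pool/Agent/W263/BSD/Defs.lean`):
`pointCount a b p` is the number of the solutions of `y² = x³ + a x + b` modulo `p`,
`GoodPrime a b p`: `p` is a prime which does not divide `2 (-4 a³ - 27 b²)`.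
-/

namespace Pool.Agent.Results.MP_3283e1_nt.GaussianLawCurves

open Finset
open Pool.Agent.W263.BSD (GoodPrime pointCount)

open Classical in
/-- The product of `(N_p + 1) / p` over the primes `p ≤ x` of good reduction of
`y² = x³ + a x + b`; `N_p + 1` is the number of the points over `F_p`, including the point at
infinity. -/
noncomputable def product (a b : ℤ) (x : ℕ) : ℝ :=
  ∏ p ∈ (range (x + 1)).filter (fun p => GoodPrime a b p), ((pointCount a b p : ℝ) + 1) / p

/-- the sum of `1 / p` over the primes `p ≤ x` which divide `a` -/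
noncomputable def divisorSum (a : ℤ) (x : ℕ) : ℝ :=
  ∑ p ∈ (range (x + 1)).filter (fun p : ℕ => p.Prime ∧ (p : ℤ) ∣ a), 1 / (p : ℝ)

/-- the distribution function of the standard normal law -/
noncomputable def Φ (u : ℝ) : ℝ := ∫ t in Set.Iic u, (√(2 * Real.pi))⁻¹ * Real.exp (-t ^ 2 / 2)

/-- the normalized logarithm of the product is at most `u` -/
def Below (x : ℕ) (u : ℝ) (a b : ℤ) : Prop :=
  Real.log (product a b x) ≤ Real.log (Real.log x) / 2 + u * √(Real.log (Real.log x))

lemma Φ_eq (u : ℝ) : Φ u = Pool.Agent.N430.CLT.Phi u := (Pool.Agent.N430.CLT.Phi_eq u).symm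

lemma product_eq (a b : ℤ) (x : ℕ) :
    Real.log (product a b x) = ∑ p ∈ Pool.Agent.N430.CLT.PP x, Pool.Agent.R459.Bsd.GG a p b := by
  classical
  unfold product
  rw [Real.log_prod]
  · have e : ∑ p ∈ Pool.Agent.N430.CLT.PP x, Pool.Agent.R459.Bsd.GG a p b =
        ∑ p ∈ (range (x + 1)).filter (fun p => GoodPrime a b p), Pool.Agent.R459.Bsd.GG a p b := by
      symm
      apply sum_subset
      · intro p hp
        rw [mem_filter, mem_range] at hp
        rw [Pool.Agent.N430.CLT.mem_PP]
        exact ⟨by omega, hp.2.1⟩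
      · intro p hp hnp
        rw [Pool.Agent.N430.CLT.mem_PP] at hp
        unfold Pool.Agent.R459.Bsd.GG
        rw [if_neg]
        intro hg
        apply hnp
        rw [mem_filter, mem_range]
        exact ⟨by omega, hg⟩
    rw [e]
    apply sum_congr rfl
    intro p hp
    unfold Pool.Agent.R459.Bsd.GG
    rw [if_pos (mem_filter.1 hp).2]
  · intro p hp
    rw [mem_filter] at hp
    have : (0 : ℝ) < p := by exact_mod_cast hp.2.1.pos
    positivity

lemma below_iff (x : ℕ) (u : ℝ) (a b : ℤ) : Below x u a b ↔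
    ∑ p ∈ Pool.Agent.N430.CLT.PP x, Pool.Agent.R459.Bsd.GG a p b - Real.log (Real.log x) / 2 ≤
      u * √(Real.log (Real.log x)) := by
  unfold Below
  rw [product_eq, sub_le_iff_le_add, add_comm (Real.log (Real.log x) / 2)]

lemma divisorSum_eq (a : ℤ) (x : ℕ) : divisorSum a x = Pool.Agent.V8H64.GB.rec a x := by
  classical
  unfold divisorSum Pool.Agent.V8H64.GB.rec Pool.Agent.N430.CLT.PP
  rw [← Finset.sum_filter, Finset.filter_filter]

/-- **The Gaussian law for the product of Birch and Swinnerton-Dyer over all elliptic curves.** -/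
theorem result :
    -- (1) the curves in a box
    (∀ ε : ℝ, 0 < ε → ∃ K : ℕ, ∀ (α c : ℤ) (A H x : ℕ), (K : ℝ) ≤ Real.log (Real.log x) →
      Real.log (Real.log x) ≤ A → x ^ K ≤ H → ∀ u : ℝ,
      |({z : ℤ × ℤ | (α < z.1 ∧ z.1 ≤ α + A) ∧ (c < z.2 ∧ z.2 ≤ c + H) ∧
          Below x u z.1 z.2}.ncard : ℝ) - Φ u * (A * H)| ≤ ε * (A * H)) ∧
    -- (2) one coefficient fixed
    (∀ M ε : ℝ, 0 ≤ M → 0 < ε → ∃ K : ℕ, ∀ (a c : ℤ) (H x : ℕ), divisorSum a x ≤ M →
      (K : ℝ) ≤ Real.log (Real.log x) → x ^ K ≤ H → ∀ u : ℝ,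
      |({b : ℤ | c < b ∧ b ≤ c + H ∧ Below x u a b}.ncard : ℝ) - Φ u * H| ≤ ε * H) := by
  constructor
  · intro ε hε
    obtain ⟨K, -, hK⟩ := Pool.Agent.V8H64.GB.box ε hε
    refine ⟨K, fun α c A H x h1 h2 h3 u => ?_⟩
    rw [Pool.Agent.V8H64.GB.ncard_pair, Φ_eq]
    simp only [below_iff]
    exact hK α c A H x h1 h2 h3 u
  · intro M ε hM hε
    obtain ⟨K, hK1, hK⟩ := Pool.Agent.V8H64.GB.curve_gen M hM ε hε
    refine ⟨K, fun a c H x h1 h2 h3 u => ?_⟩
    rw [Pool.Agent.V8H64.GB.ncard_int, Φ_eq]
    simp only [below_iff]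
    rw [divisorSum_eq] at h1
    have hx2 : 2 ≤ x := by
      by_contra hcon
      have hK1' : (1 : ℝ) ≤ K := by exact_mod_cast hK1
      have h4 : x = 0 ∨ x = 1 := by omega
      rcases h4 with h4 | h4
      · rw [h4] at h2
        simp at h2
        omega
      · rw [h4] at h2
        simp at h2
        omega
    have hKH : K ≤ H := by
      have : K < x ^ K := Nat.lt_pow_self (by omega)
      omega
    exact hK ⟨a, c, H, x⟩ ⟨hKH, h3, h2, h1⟩ u

end Pool.Agent.Results.MP_3283e1_nt.GaussianLawCurves
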