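import Pool.Agent.V8H64.GB.Tw

set_option autoImplicit false

/-!
# The Gaussian law for the product of Birch and Swinnerton-Dyer over the quadratic twists of any curve

The quadratic twist `E_D` of `E : y² = x³ + a x + b` by `D` is `y² = x³ + a D² x + b D³`. Let
`P_D(x)` be the product of `#E_D(F_p) / p` over the primes `p ≤ x` of good reduction (`p` does not
divide `2 (4 a³ + 27 b²) D`), let `C(x)` be the sum of `1 / p - a_p² / (2 p²)` and `V(x)` the sum of
`a_p² / p²` over the primes `p ≤ x` of good reduction of `E`. (By the theorem of Rankin and Selberg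
`C(x) = (log log x) / 2 + O(1)` and `V(x) = log log x + O(1)` for a fixed curve; this is not used
and not proved here.)

(1) For the twists by the squarefree `D = ± n`, `c < n ≤ c + H`, where `H ≥ K √(c + H)` and
`H ≥ x ^ K`, `(log P_D(x) - C(x)) / √V(x)` has the distribution function of the standard normal law,
up to `ε`, if `V(x) ≥ K`; the number `K` depends only on `ε`, not on the curve, the interval, or `x`.

(2) The same for the twists by all `D = ± n`, `c < n ≤ c + H`, in the much shorter intervals with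
`H ≥ x ^ K`.

Definitions used: in `Pool.Agent.W263.BSD` (file `Pool/Agent/W263/BSD/Defs.lean`):
`pointCount a b p` is the number of the solutions of `y² = x³ + a x + b` modulo `p`,
`GoodPrime a b p`: `p` is a prime which does not divide `2 (-4 a³ - 27 b²)`.
-/

namespace Pool.Agent.Results.MP_3283e1_nt.GaussianLawTwists

open Finset
open Pool.Agent.W263.BSD (GoodPrime pointCount)

open Classical in
/-- The product of `(N_p + 1) / p` over the primes `p ≤ x` of good reduction of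
`y² = x³ + a x + b`; `N_p + 1` is the number of the points over `F_p`, including the point at
infinity. -/
noncomputable def product (a b : ℤ) (x : ℕ) : ℝ :=
  ∏ p ∈ (range (x + 1)).filter (fun p => GoodPrime a b p), ((pointCount a b p : ℝ) + 1) / p

open Classical in
/-- The sum of `1 / p - a_p² / (2 p²)`, `a_p = p - N_p`, over the primes `p ≤ x` of good reduction of
`y² = x³ + a x + b`. -/
noncomputable def centre (a b : ℤ) (x : ℕ) : ℝ :=
  ∑ p ∈ (range (x + 1)).filter (fun p => GoodPrime a b p),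
    (1 / (p : ℝ) - ((p : ℝ) - pointCount a b p) ^ 2 / (2 * (p : ℝ) ^ 2))

open Classical in
/-- The sum of `a_p² / p²`, `a_p = p - N_p`, over the primes `p ≤ x` of good reduction of
`y² = x³ + a x + b`. -/
noncomputable def variance (a b : ℤ) (x : ℕ) : ℝ :=
  ∑ p ∈ (range (x + 1)).filter (fun p => GoodPrime a b p),
    (((p : ℝ) - pointCount a b p) / p) ^ 2

/-- the distribution function of the standard normal law -/
noncomputable def Φ (u : ℝ) : ℝ := ∫ t in Set.Iic u, (√(2 * Real.pi))⁻¹ * Real.exp (-t ^ 2 / 2)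

/-- the normalized logarithm of the product for the twist by `D` is at most `u` -/
def Below (a b : ℤ) (x : ℕ) (u : ℝ) (D : ℤ) : Prop :=
  Real.log (product (a * D ^ 2) (b * D ^ 3) x) ≤ centre a b x + u * √(variance a b x)

lemma Φ_eq (u : ℝ) : Φ u = Pool.Agent.N430.CLT.Phi u := (Pool.Agent.N430.CLT.Phi_eq u).symm

lemma sum_good (a b : ℤ) (x : ℕ) (f : ℕ → ℝ) (hf : ∀ p, ¬ GoodPrime a b p → f p = 0) :
    ∑ p ∈ Pool.Agent.N430.CLT.PP x, f p =
      ∑ p ∈ @Finset.filter ℕ (fun p => GoodPrime a b p) (Classical.decPred _) (range (x + 1)), f p := by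
  classical
  symm
  apply sum_subset
  · intro p hp
    rw [mem_filter, mem_range] at hp
    rw [Pool.Agent.N430.CLT.mem_PP]
    exact ⟨by omega, hp.2.1⟩
  · intro p hp hnp
    rw [Pool.Agent.N430.CLT.mem_PP] at hp
    apply hf
    intro hg
    apply hnp
    rw [mem_filter, mem_range]
    exact ⟨by omega, hg⟩

lemma product_eq (a b D : ℤ) (x : ℕ) : Real.log (product (a * D ^ 2) (b * D ^ 3) x) =
    ∑ p ∈ Pool.Agent.N430.CLT.PP x, Pool.Agent.H491R4.TW.HH a b p D := by
  classical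
  rw [sum_good (a * D ^ 2) (b * D ^ 3) x (fun p => Pool.Agent.H491R4.TW.HH a b p D) (fun p hg => by
    unfold Pool.Agent.H491R4.TW.HH Pool.Agent.R459.Bsd.GG
    rw [if_neg hg])]
  unfold product
  rw [Real.log_prod]
  · have e : (range (x + 1)).filter (fun p => GoodPrime (a * D ^ 2) (b * D ^ 3) p) =
      @Finset.filter ℕ (fun p => GoodPrime (a * D ^ 2) (b * D ^ 3) p) (Classical.decPred _)
        (range (x + 1)) := by congr
    rw [e]
    apply sum_congr rfl
    intro p hp
    unfold Pool.Agent.H491R4.TW.HH Pool.Agent.R459.Bsd.GG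
    rw [if_pos (mem_filter.1 hp).2]
  · intro p hp
    rw [mem_filter] at hp
    have : (0 : ℝ) < p := by exact_mod_cast hp.2.1.pos
    positivity

lemma centre_eq (a b : ℤ) (x : ℕ) :
    centre a b x = ∑ p ∈ Pool.Agent.N430.CLT.PP x, Pool.Agent.H491R4.TW.cc a b p := by
  classical
  rw [sum_good a b x (fun p => Pool.Agent.H491R4.TW.cc a b p) (fun p hg => by
    unfold Pool.Agent.H491R4.TW.cc
    rw [if_neg hg])]
  unfold centre
  have e : (range (x + 1)).filter (fun p => GoodPrime a b p) =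
      @Finset.filter ℕ (fun p => GoodPrime a b p) (Classical.decPred _) (range (x + 1)) := by congr
  rw [e]
  apply sum_congr rfl
  intro p hp
  unfold Pool.Agent.H491R4.TW.cc
  rw [if_pos (mem_filter.1 hp).2]

lemma variance_eq (a b : ℤ) (x : ℕ) : variance a b x = Pool.Agent.V8H64.GB.VV a b x := by
  classical
  unfold Pool.Agent.V8H64.GB.VV
  rw [sum_good a b x (fun p => (Pool.Agent.R459.Bsd.TT a p b / p) ^ 2) (fun p hg => by
    unfold Pool.Agent.R459.Bsd.TT
    rw [if_neg hg]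
    simp)]
  unfold variance
  have e : (range (x + 1)).filter (fun p => GoodPrime a b p) =
      @Finset.filter ℕ (fun p => GoodPrime a b p) (Classical.decPred _) (range (x + 1)) := by congr
  rw [e]
  apply sum_congr rfl
  intro p hp
  unfold Pool.Agent.R459.Bsd.TT
  rw [if_pos (mem_filter.1 hp).2]

lemma below_iff (a b : ℤ) (x : ℕ) (u : ℝ) (D : ℤ) : Below a b x u D ↔
    ∑ p ∈ Pool.Agent.N430.CLT.PP x, Pool.Agent.H491R4.TW.HH a b p D -
      ∑ p ∈ Pool.Agent.N430.CLT.PP x, Pool.Agent.H491R4.TW.cc a b p ≤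
      u * √(Pool.Agent.V8H64.GB.VV a b x) := by
  unfold Below
  rw [product_eq, centre_eq, variance_eq, sub_le_iff_le_add, add_comm (u * _)]

lemma ncard_eq (c H : ℕ) (P : ℕ → Prop) :
    (Set.ncard {n : ℕ | c < n ∧ n ≤ c + H ∧ P n} : ℝ) = Pool.Agent.V8H64.GL.cnt P c H := by
  classical
  rw [← Pool.Agent.V8H64.GL.cnt_eq, ← Set.ncard_coe_finset]
  congr 2
  ext n
  rw [Finset.mem_coe, Finset.mem_filter, Finset.mem_Ioc]
  constructor
  · rintro ⟨h1, h2, h3⟩
    exact ⟨⟨h1, h2⟩, h3⟩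
  · rintro ⟨⟨h1, h2⟩, h3⟩
    exact ⟨h1, h2, h3⟩

/-- **The Gaussian law for the product of Birch and Swinnerton-Dyer over the quadratic twists.** -/
theorem result :
    ∀ ε : ℝ, 0 < ε → ∃ K : ℕ, ∀ (a b σ : ℤ) (c H x : ℕ), (σ = 1 ∨ σ = -1) →
      (K : ℝ) ≤ variance a b x → x ^ K ≤ H → ∀ u : ℝ,
      -- (1) the twists by the squarefree integers `σ n`
      ((K : ℝ) * √(c + H) ≤ H →
        |({n : ℕ | c < n ∧ n ≤ c + H ∧ Squarefree n ∧ Below a b x u (σ * n)}.ncard : ℝ) -
          Φ u * {n : ℕ | c < n ∧ n ≤ c + H ∧ Squarefree n}.ncard| ≤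
          ε * {n : ℕ | c < n ∧ n ≤ c + H ∧ Squarefree n}.ncard) ∧
      -- (2) the twists by all the integers `σ n`
      |({n : ℕ | c < n ∧ n ≤ c + H ∧ Below a b x u (σ * n)}.ncard : ℝ) - Φ u * H| ≤ ε * H := by
  classical
  intro ε hε
  have s1 : |(1 : ℤ)| = 1 := by norm_num
  have s2 : |(-1 : ℤ)| = 1 := by norm_num
  have hRT : ∀ K K' a H : ℕ, K ≤ K' → Pool.Agent.V8H64.GL.RT K' a H → Pool.Agent.V8H64.GL.RT K a H :=
    fun _ _ _ _ _ h => h
  obtain ⟨K₁, hK₁, h₁⟩ := Pool.Agent.V8H64.GB.twist_gen _ _ Pool.Agent.V8H64.GL.RF_mono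
    Pool.Agent.V8H64.GB.approx_sqf Pool.Agent.V8H64.GB.pos_sqf 1 s1 ε hε
  obtain ⟨K₂, hK₂, h₂⟩ := Pool.Agent.V8H64.GB.twist_gen _ _ Pool.Agent.V8H64.GL.RF_mono
    Pool.Agent.V8H64.GB.approx_sqf Pool.Agent.V8H64.GB.pos_sqf (-1) s2 ε hε
  obtain ⟨K₃, hK₃, h₃⟩ := Pool.Agent.V8H64.GB.twist_gen _ _ hRT
    Pool.Agent.V8H64.GL.approx_all Pool.Agent.V8H64.GL.pos_all 1 s1 ε hε
  obtain ⟨K₄, hK₄, h₄⟩ := Pool.Agent.V8H64.GB.twist_gen _ _ hRT
    Pool.Agent.V8H64.GL.approx_all Pool.Agent.V8H64.GL.pos_all (-1) s2 ε hε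
  refine ⟨max (max K₁ K₂) (max K₃ K₄), fun a b σ c H x hσ hV hx u => ?_⟩
  set K := max (max K₁ K₂) (max K₃ K₄) with hKdef
  have k1 : K₁ ≤ K := (le_max_left _ _).trans (le_max_left _ _)
  have k2 : K₂ ≤ K := (le_max_right _ _).trans (le_max_left _ _)
  have k3 : K₃ ≤ K := (le_max_left _ _).trans (le_max_right _ _)
  have k4 : K₄ ≤ K := (le_max_right _ _).trans (le_max_right _ _)
  have hK1' : (1 : ℝ) ≤ K := by exact_mod_cast hK₁.trans k1
  rw [variance_eq] at hV
  -- `x` is at least two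
  have hx2 : 2 ≤ x := by
    by_contra hcon
    have e : Pool.Agent.N430.CLT.PP x = ∅ := by
      have h4 : x = 0 ∨ x = 1 := by omega
      rcases h4 with h4 | h4 <;> rw [h4] <;> decide
    unfold Pool.Agent.V8H64.GB.VV at hV
    rw [e, Finset.sum_empty] at hV
    linarith
  have hpow : ∀ K' : ℕ, K' ≤ K → x ^ K' ≤ H := fun K' h =>
    (Nat.pow_le_pow_right (by omega) h).trans hx
  have hKH : ∀ K' : ℕ, K' ≤ K → K' ≤ H := by
    intro K' h
    have : K' < x ^ K' := Nat.lt_pow_self (by omega)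
    have := hpow K' h
    omega
  have hVK : ∀ K' : ℕ, K' ≤ K → (K' : ℝ) ≤ Pool.Agent.V8H64.GB.VV a b x := fun K' h =>
    le_trans (by exact_mod_cast h) hV
  constructor
  · intro hR
    have hRF : Pool.Agent.V8H64.GL.RF K c H := hR
    rw [ncard_eq, ncard_eq, Φ_eq]
    simp only [below_iff]
    rcases hσ with rfl | rfl
    · exact h₁ ⟨a, b, c, H, x⟩ ⟨Pool.Agent.V8H64.GL.RF_mono _ _ _ _ k1 hRF, hKH _ k1, hpow _ k1,
        hVK _ k1⟩ u
    · exact h₂ ⟨a, b, c, H, x⟩ ⟨Pool.Agent.V8H64.GL.RF_mono _ _ _ _ k2 hRF, hKH _ k2, hpow _ k2,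
        hVK _ k2⟩ u
  · have hcnt : Pool.Agent.V8H64.GL.cnt (fun _ => True) c H = H := by
      unfold Pool.Agent.V8H64.GL.cnt
      simp
    rw [ncard_eq, Φ_eq]
    simp only [below_iff]
    rcases hσ with rfl | rfl
    · have h := h₃ ⟨a, b, c, H, x⟩ ⟨trivial, hKH _ k3, hpow _ k3, hVK _ k3⟩ u
      dsimp only at h
      simp only [true_and, hcnt] at h
      exact h
    · have h := h₄ ⟨a, b, c, H, x⟩ ⟨trivial, hKH _ k4, hpow _ k4, hVK _ k4⟩ u
      dsimp only at h
      simp only [true_and, hcnt] at h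
      exact h

end Pool.Agent.Results.MP_3283e1_nt.GaussianLawTwists
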