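import Pool.Agent.V8H71.MS.Fn3
import Pool.Agent.TH941.Newform

/-!
# The product of Birch and Swinnerton-Dyer in mean square

`E : y² = x³ + a x + b` is an elliptic curve over `ℚ`, `a, b ∈ ℤ`, `N_p` is the number of points modulo `p` (with
the point at infinity) and `P(x) = ∏_{p ≤ x, p ∤ 2Δ} N_p / p`.  `F` is the entire continuation of the incomplete
`L`-series, `r = ord_{s=1} F` and `T = √2 e^{rγ} r! / |F^{(r)}(1)|` is Goldfeld's constant; `f` is the newform
of `E`.  Let `P*(x) = P(x) exp (∑_{√x < p ≤ x} (a_p² - 2p) / (2p²))`.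

(A) For every `Θ ≥ 0` the following are equivalent: `F` has no zeros with `Re s > 1 + Θ`;
`∫_1^∞ max (log P(x), 0) x^(-1-Θ-ε) dx < ∞` for all `ε > 0`; `∫_1^∞ (log P(x))² x^(-1-2Θ-ε) dx < ∞`
for all `ε > 0`.

(B) The Riemann hypothesis for `F` is equivalent to the mean square bound
`∫_2^X (log x)² (log P*(x) - r log log x - log (T/√2))² dx/x ≤ C log X`, and to
`(1/log X) ∫_2^X (log P(x) - r log log x - log T)² dx/x → 0`.

(C) If `(1/log X) ∫_2^X |log P(x) - ρ log log x - log A| dx/x → 0` for some real `ρ` and some `A > 0` (the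
conjecture `P(x) ~ A (log x)^ρ` in logarithmic mean), then the Riemann hypothesis holds for `F`, `ρ = r` and `A = T`;
and conversely.
-/

set_option autoImplicit false

namespace Pool.Agent.Results.MP_3283e1_nt.MeanSquareBSD

open Filter Topology Classical CongruenceSubgroup UpperHalfPlane MeasureTheory
open scoped MatrixGroups

/-- `N_p`: the number of points of `y² = x³ + a x + b` modulo `p`, with the point at infinity. -/
noncomputable def numPoints (a b : ℤ) (p : ℕ) : ℕ :=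
  Nat.card {q : ZMod p × ZMod p // q.2 ^ 2 = q.1 ^ 3 + (a : ZMod p) * q.1 + (b : ZMod p)} + 1

/-- `p` is a prime that does not divide `2 Δ`, where `Δ = -4 a³ - 27 b²`. -/
def Good (a b : ℤ) (p : ℕ) : Prop :=
  p.Prime ∧ ¬ ((p : ℤ) ∣ 2 * (-4 * a ^ 3 - 27 * b ^ 2))

/-- The original Birch and Swinnerton-Dyer product `P(x) = ∏_{p ≤ x, p ∤ 2Δ} N_p / p`. -/
noncomputable def P (a b : ℤ) (x : ℝ) : ℝ :=
  ∏ p ∈ (Finset.range (⌊x⌋₊ + 1)).filter (Good a b), ((numPoints a b p : ℝ) / p)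

/-- The product with the second order correction,
`P*(x) = P(x) exp (∑_{√x < p ≤ x, p ∤ 2Δ} (a_p² - 2p) / (2p²))`, `a_p = p + 1 - N_p`. -/
noncomputable def Pstar (a b : ℤ) (x : ℝ) : ℝ :=
  P a b x * Real.exp (∑ p ∈ (Finset.range (⌊x⌋₊ + 1)).filter (fun p => Good a b p ∧ √x < p),
    (((p : ℝ) + 1 - numPoints a b p) ^ 2 - 2 * p) / (2 * (p : ℝ) ^ 2))

/-- `F` is an entire function which for `Re s > 3/2` is the incomplete `L`-series
`∏_{p ∤ 2Δ} (1 - a_p p^{-s} + p^{1-2s})⁻¹`, `a_p = p + 1 - N_p`, of `y² = x³ + a x + b`. -/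
def IsLSeries (a b : ℤ) (F : ℂ → ℂ) : Prop :=
  Differentiable ℂ F ∧ ∀ s : ℂ, (3 : ℝ) / 2 < s.re →
    HasProd (fun p : ℕ => if Good a b p then
      (1 - ((p : ℂ) + 1 - (numPoints a b p : ℂ)) * (p : ℂ) ^ (-s) + (p : ℂ) ^ (1 - 2 * s))⁻¹ else 1)
      (F s)

/-- The `n`-th Fourier coefficient of `f`. -/
noncomputable def coef {N : ℕ} (f : CuspForm (Gamma0 N : Subgroup (GL (Fin 2) ℝ)) 2) (n : ℕ) : ℂ :=
  (qExpansion 1 f).coeff n

/-- `f ∈ S_2(Γ₀(N))` is the newform of the elliptic curve `E : y² = x³ + a x + b` of conductor `N`: the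
Fourier coefficients `c(n)` of `f` are real with `c(1) = 1`, they satisfy the Hecke relations
`c(mn) = c(m) c(n)` for coprime `m`, `n` and `c(p^(j+2)) = c(p) c(p^(j+1)) - p c(p^j)` (without the last
term if `p ∣ N`), all primes `p ∤ 2Δ` have `p ∤ N` and `c(p) = a_p = p + 1 - N_p`, `|c(p)| ≤ 2 √p` for all
`p ∤ N` (Hasse) and `c(p) = 0, 1, -1` for `p ∣ N`. -/
structure IsNewformOf (a b : ℤ) (N : ℕ) (f : CuspForm (Gamma0 N : Subgroup (GL (Fin 2) ℝ)) 2) :
    Prop where
  one : coef f 1 = 1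
  real : ∀ n, (coef f n).im = 0
  mul : ∀ m n : ℕ, Nat.Coprime m n → coef f (m * n) = coef f m * coef f n
  pow : ∀ p j : ℕ, p.Prime → coef f (p ^ (j + 2)) = coef f p * coef f (p ^ (j + 1)) -
      (if p ∣ N then 0 else (p : ℂ) * coef f (p ^ j))
  points : ∀ p : ℕ, Good a b p → ¬ p ∣ N ∧ coef f p = (p : ℂ) + 1 - (numPoints a b p : ℂ)
  good : ∀ p : ℕ, p.Prime → ¬ p ∣ N → ‖coef f p‖ ≤ 2 * Real.sqrt p
  bad : ∀ p : ℕ, p.Prime → p ∣ N → coef f p = 0 ∨ coef f p = 1 ∨ coef f p = -1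

/-- Goldfeld's constant `T = √2 e^{rγ} r! / |F^{(r)}(1)|` -/
noncomputable def T (F : ℂ → ℂ) (r : ℕ) : ℝ :=
  √2 * Real.exp (r * Real.eulerMascheroniConstant) * (r.factorial : ℝ) / ‖iteratedDeriv r F 1‖

/-- `F` has no zeros with `Re s > 1`. -/
def RiemannHyp (F : ℂ → ℂ) : Prop := ∀ s : ℂ, 1 < s.re → F s ≠ 0

/-- The logarithmic error `log P(x) - ρ log log x - log A` of the conjecture `P(x) ~ A (log x)^ρ`. -/
noncomputable def err (a b : ℤ) (ρ A x : ℝ) : ℝ :=
  Real.log (P a b x) - ρ * Real.log (Real.log x) - Real.log A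

/-- The logarithmic error `log P*(x) - r log log x - log (T/√2)`. -/
noncomputable def errStar (a b : ℤ) (F : ℂ → ℂ) (r : ℕ) (x : ℝ) : ℝ :=
  Real.log (Pstar a b x) - r * Real.log (Real.log x) - Real.log (T F r / √2)

/-! ### Translation to the definitions of the imported files -/

variable {a b : ℤ}

theorem P_eq : P a b = Pool.Agent.W263.BSD.bsdProduct a b := by
  funext x
  unfold P Pool.Agent.W263.BSD.bsdProduct numPoints Pool.Agent.W263.BSD.pointCount
  refine Finset.prod_congr rfl fun p _ => ?_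
  push_cast
  rfl

theorem Pstar_eq : Pstar a b = Pool.Agent.W263.BSD.bsdStar a b := by
  funext x
  unfold Pstar Pool.Agent.W263.BSD.bsdStar
  rw [P_eq]
  congr 2
  refine Finset.sum_congr rfl fun p _ => ?_
  unfold numPoints Pool.Agent.W263.BSD.pointCount
  push_cast
  ring

theorem numPoints_sub (p : ℕ) : (p : ℂ) + 1 - (numPoints a b p : ℂ) =
    (p : ℂ) - (Pool.Agent.W263.BSD.pointCount a b p : ℂ) := by
  unfold numPoints Pool.Agent.W263.BSD.pointCount
  push_cast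
  ring

theorem isLSeries {F : ℂ → ℂ} (hF : IsLSeries a b F) :
    Pool.Agent.W263.BSD.IsLSeries a b F := by
  refine ⟨hF.1, fun s hs => ?_⟩
  have h := hF.2 s hs
  simp only [numPoints_sub] at h
  exact h

theorem bad_le {N : ℕ} {f : CuspForm (Gamma0 N : Subgroup (GL (Fin 2) ℝ)) 2}
    (hf : IsNewformOf a b N f) (p : ℕ) (hp : p.Prime) (h : p ∣ N) : ‖coef f p‖ ≤ 1 := by
  rcases hf.bad p hp h with h1 | h1 | h1 <;> rw [h1] <;> simp

theorem hecke {N : ℕ} {f : CuspForm (Gamma0 N : Subgroup (GL (Fin 2) ℝ)) 2}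
    (hf : IsNewformOf a b N f) : Pool.Agent.TH941.Hecke f where
  one := hf.one
  real := hf.real
  mul := hf.mul
  pow := hf.pow
  good := hf.good
  bad := bad_le hf

theorem nf {N : ℕ} [NeZero N] {f : CuspForm (Gamma0 N : Subgroup (GL (Fin 2) ℝ)) 2}
    (hf : IsNewformOf a b N f) : Pool.Agent.V8H71.MS.Nf a b N f where
  cf := {
    zero := Pool.Agent.W165.RS.ac_zero f
    one := hf.one
    real := hf.real
    mul := hf.mul
    pow := hf.pow
    good := hf.good
    bad := bad_le hf }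
  pts := fun p hp => ⟨(hf.points p hp).1, (hf.points p hp).2.trans (numPoints_sub p)⟩

theorem T_eq (F : ℂ → ℂ) (r : ℕ) : T F r = Pool.Agent.N586.BP.TT F r := by
  unfold T Pool.Agent.N586.BP.TT Pool.Agent.W263.BSD.leadAbs
  rw [div_div_eq_mul_div, mul_div_assoc', ← mul_assoc]

theorem T0_eq (F : ℂ → ℂ) (r : ℕ) : T F r / √2 = Pool.Agent.V8H71.MS.T0 F r := by
  unfold T Pool.Agent.V8H71.MS.T0 Pool.Agent.W263.BSD.leadAbs
  have h : √(2 : ℝ) ≠ 0 := by positivity
  rw [div_div_eq_mul_div]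
  field_simp

theorem err_exp (ρ A u : ℝ) : err a b ρ A (Real.exp u) = Pool.Agent.V8H71.MS.Ep a b ρ A u := by
  unfold err Pool.Agent.V8H71.MS.Ep Pool.Agent.V8H71.MS.lP
  rw [P_eq, Real.log_exp]

theorem errStar_exp (F : ℂ → ℂ) (r : ℕ) (u : ℝ) :
    errStar a b F r (Real.exp u) = Pool.Agent.V8H71.MS.Es a b F r u := by
  unfold errStar Pool.Agent.V8H71.MS.Es Pool.Agent.V8H71.MS.lS
  rw [Pstar_eq, T0_eq, Real.log_exp]

open Pool.Agent.V8H71.MS in
/-- the mean values on the two scales -/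
theorem mean_iff (g : ℝ → ℝ) (h : ℝ → ℝ) (hgh : ∀ u, g (Real.exp u) = h u) :
    Tendsto (fun X : ℝ => (∫ x in Set.Ioc 2 X, g x / x) / Real.log X) atTop (𝓝 0) ↔
      Tendsto (mv h) atTop (𝓝 0) := by
  have key : ∀ X : ℝ, 0 < X → (∫ x in Set.Ioc 2 X, g x / x) / Real.log X = mv h (Real.log X) := by
    intro X hX
    rw [cov_int g (by norm_num) hX]
    unfold mv
    simp only [hgh]
  constructor
  · intro ht
    have h1 := ht.comp Real.tendsto_exp_atTop
    refine h1.congr fun u => ?_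
    simp only [Function.comp_apply]
    rw [key _ (Real.exp_pos u), Real.log_exp]
  · intro ht
    refine (ht.comp Real.tendsto_log_atTop).congr' ?_
    filter_upwards [eventually_gt_atTop 0] with X hX
    rw [key X hX]
    rfl

/-- **The product of Birch and Swinnerton-Dyer in mean square.** Let `r = ord_{s=1} F` and let `T` be
Goldfeld's constant.

(A) For every `Θ ≥ 0` there are equivalent: `F` has no zeros with `Re s > 1 + Θ`;
`∫_1^∞ max (log P(x), 0) x^(-1-Θ-ε) dx < ∞` for all `ε > 0`; `∫_1^∞ (log P(x))² x^(-1-2Θ-ε) dx < ∞` for all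
`ε > 0`.

(B) There are equivalent: the Riemann hypothesis for `F`; for some `C` and all `X ≥ 2`
`∫_2^X (log x)² (log P*(x) - r log log x - log (T/√2))² dx/x ≤ C log X`; for all `κ < 1`
`∫_2^∞ (log x)^κ (log P*(x) - r log log x - log (T/√2))² dx/x < ∞`; the same for some real `κ`;
`(1/log X) ∫_2^X (log P(x) - r log log x - log T)² dx/x → 0` for `X → ∞`.

(C) For real `ρ` and `A > 0` there are equivalent:
`(1/log X) ∫_2^X |log P(x) - ρ log log x - log A| dx/x → 0` for `X → ∞`; the same with the square of the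
absolute value; the Riemann hypothesis for `F` and `ρ = r` and `A = T`. -/
theorem result (a b : ℤ) (hΔ : 4 * a ^ 3 + 27 * b ^ 2 ≠ 0) (F : ℂ → ℂ) (hF : IsLSeries a b F)
    (N : ℕ) [NeZero N] (f : CuspForm (Gamma0 N : Subgroup (GL (Fin 2) ℝ)) 2)
    (hf : IsNewformOf a b N f) :
    ∃ r : ℕ, analyticOrderAt F 1 = r ∧ 0 < T F r ∧
      (∀ Θ : ℝ, 0 ≤ Θ → List.TFAE [
        ∀ s : ℂ, 1 + Θ < s.re → F s ≠ 0,
        ∀ ε : ℝ, 0 < ε → IntegrableOn
          (fun x : ℝ => max (Real.log (P a b x)) 0 * x ^ (-1 - Θ - ε)) (Set.Ioi 1),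
        ∀ ε : ℝ, 0 < ε → IntegrableOn
          (fun x : ℝ => Real.log (P a b x) ^ 2 * x ^ (-1 - 2 * Θ - ε)) (Set.Ioi 1)]) ∧
      List.TFAE [
        RiemannHyp F,
        ∃ C : ℝ, ∀ X : ℝ, 2 ≤ X →
          ∫ x in Set.Ioc 2 X, Real.log x ^ 2 * errStar a b F r x ^ 2 / x ≤ C * Real.log X,
        ∀ κ : ℝ, κ < 1 → IntegrableOn
          (fun x : ℝ => Real.log x ^ κ * errStar a b F r x ^ 2 / x) (Set.Ioi 2),
        ∃ κ : ℝ, IntegrableOn
          (fun x : ℝ => Real.log x ^ κ * errStar a b F r x ^ 2 / x) (Set.Ioi 2),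
        Tendsto (fun X : ℝ => (∫ x in Set.Ioc 2 X, err a b r (T F r) x ^ 2 / x) / Real.log X)
          atTop (𝓝 0)] ∧
      (∀ ρ A : ℝ, 0 < A → List.TFAE [
        Tendsto (fun X : ℝ => (∫ x in Set.Ioc 2 X, |err a b ρ A x| / x) / Real.log X) atTop (𝓝 0),
        Tendsto (fun X : ℝ => (∫ x in Set.Ioc 2 X, err a b ρ A x ^ 2 / x) / Real.log X) atTop (𝓝 0),
        RiemannHyp F ∧ ρ = r ∧ A = T F r]) := by
  have hF' := isLSeries hF
  have hf' := nf hf
  obtain ⟨r, hr⟩ := Pool.Agent.W263.BSD.order_finite hF'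
  have hrs : Tendsto (Pool.Agent.W263.BSD.rsSum a b) atTop (𝓝 0) :=
    (hecke hf).rsSum_tendsto hΔ fun p hp => (hf.points p hp).2.trans (numPoints_sub p)
  have hT : 0 < T F r := by
    obtain ⟨h1, -⟩ := Pool.Agent.W263.BSD.lead_limit hF'.1 hr
    rw [T_eq]
    exact Pool.Agent.V8H22.BSW.TT_pos h1
  have hP : ∀ u : ℝ, Real.log (P a b (Real.exp u)) = Pool.Agent.V8H71.MS.lP a b u := by
    intro u
    unfold Pool.Agent.V8H71.MS.lP
    rw [P_eq]
  -- (A), change of variables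
  have hA1 : ∀ (g : ℝ → ℝ) (h : ℝ → ℝ) (w : ℝ), (∀ u, g (Real.exp u) = h u) →
      (IntegrableOn (fun x : ℝ => g x * x ^ (-1 - w)) (Set.Ioi 1) ↔
        Pool.Agent.W263.BSD.LInt h w) := by
    intro g h w hgh
    have h1 := Pool.Agent.V8H71.MS.cov_on (fun x => g x * x ^ (-w)) 0
    rw [Real.exp_zero] at h1
    unfold Pool.Agent.W263.BSD.LInt
    have h2 : IntegrableOn (fun x : ℝ => g x * x ^ (-1 - w)) (Set.Ioi 1) ↔
        IntegrableOn (fun x : ℝ => g x * x ^ (-w) / x) (Set.Ioi 1) := by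
      refine integrableOn_congr_fun (fun x hx => ?_) measurableSet_Ioi
      have hx0 : (0 : ℝ) < x := lt_trans one_pos hx
      show g x * x ^ (-1 - w) = g x * x ^ (-w) / x
      rw [mul_div_assoc]
      congr 1
      rw [show -1 - w = -w - 1 by ring, Real.rpow_sub hx0, Real.rpow_one]
    rw [h2, h1]
    refine integrableOn_congr_fun (fun u _ => ?_) measurableSet_Ioi
    show g (Real.exp u) * Real.exp u ^ (-w) = h u * Real.exp (-(w * u))
    rw [hgh, ← Real.exp_mul]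
    congr 2
    ring
  -- (B), change of variables
  have hB1 : ∀ κ : ℝ, IntegrableOn (fun x : ℝ => Real.log x ^ κ * errStar a b F r x ^ 2 / x)
      (Set.Ioi 2) ↔ IntegrableOn (fun u => u ^ κ * Pool.Agent.V8H71.MS.Es a b F r u ^ 2)
        (Set.Ioi (Real.log 2)) := by
    intro κ
    have h1 := Pool.Agent.V8H71.MS.cov_on
      (fun x => Real.log x ^ κ * errStar a b F r x ^ 2) (Real.log 2)
    rw [Real.exp_log (by norm_num)] at h1
    rw [h1]
    refine integrableOn_congr_fun (fun u _ => ?_) measurableSet_Ioi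
    show Real.log (Real.exp u) ^ κ * errStar a b F r (Real.exp u) ^ 2 = _
    rw [Real.log_exp, errStar_exp]
  have hB2 : ∀ X : ℝ, 2 ≤ X → ∫ x in Set.Ioc 2 X, Real.log x ^ 2 * errStar a b F r x ^ 2 / x =
      ∫ u in Set.Ioc (Real.log 2) (Real.log X), (u * Pool.Agent.V8H71.MS.Es a b F r u) ^ 2 := by
    intro X hX
    rw [Pool.Agent.V8H71.MS.cov_int (fun x => Real.log x ^ 2 * errStar a b F r x ^ 2) (by norm_num)
      (by linarith)]
    simp only [Real.log_exp, errStar_exp, mul_pow]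
  have hC1 : ∀ ρ A : ℝ, Tendsto (fun X : ℝ => (∫ x in Set.Ioc 2 X, |err a b ρ A x| / x) /
      Real.log X) atTop (𝓝 0) ↔
      Tendsto (Pool.Agent.V8H71.MS.mv fun u => |Pool.Agent.V8H71.MS.Ep a b ρ A u|) atTop (𝓝 0) :=
    fun ρ A => mean_iff (fun x => |err a b ρ A x|) _ fun u => by rw [err_exp]
  have hC2 : ∀ ρ A : ℝ, Tendsto (fun X : ℝ => (∫ x in Set.Ioc 2 X, err a b ρ A x ^ 2 / x) /
      Real.log X) atTop (𝓝 0) ↔
      Tendsto (Pool.Agent.V8H71.MS.mv fun u => Pool.Agent.V8H71.MS.Ep a b ρ A u ^ 2) atTop (𝓝 0) :=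
    fun ρ A => mean_iff (fun x => err a b ρ A x ^ 2) _ fun u => by rw [err_exp]
  refine ⟨r, hr, hT, fun Θ hΘ => ?_, ?_, fun ρ A hA => ?_⟩
  · tfae_have 1 → 3 := by
      intro hz ε hε
      rw [show (fun x : ℝ => Real.log (P a b x) ^ 2 * x ^ (-1 - 2 * Θ - ε)) =
        fun x : ℝ => Real.log (P a b x) ^ 2 * x ^ (-1 - (2 * Θ + ε)) by funext x; congr 2; ring]
      rw [hA1 _ (fun u => Pool.Agent.V8H71.MS.lP a b u ^ 2) _ fun u => by rw [hP]]
      exact Pool.Agent.V8H71.MS.lP_sq hΔ hF' hf' hr hΘ hz (by linarith)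
    tfae_have 3 → 2 := by
      intro h ε hε
      have h1 := h ε hε
      rw [show (fun x : ℝ => Real.log (P a b x) ^ 2 * x ^ (-1 - 2 * Θ - ε)) =
        fun x : ℝ => Real.log (P a b x) ^ 2 * x ^ (-1 - (2 * Θ + ε)) by funext x; congr 2; ring] at h1
      rw [hA1 _ (fun u => Pool.Agent.V8H71.MS.lP a b u ^ 2) _ fun u => by rw [hP]] at h1
      rw [show (fun x : ℝ => max (Real.log (P a b x)) 0 * x ^ (-1 - Θ - ε)) =
        fun x : ℝ => max (Real.log (P a b x)) 0 * x ^ (-1 - (Θ + ε)) by funext x; congr 2; ring]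
      rw [hA1 _ (fun u => max (Pool.Agent.V8H71.MS.lP a b u) 0) _ fun u => by rw [hP]]
      exact Pool.Agent.V8H71.MS.pos_of_sq hε h1
    tfae_have 2 → 1 := by
      intro h s hs
      refine Pool.Agent.V8H71.MS.free_of_LInt hF' hΘ
        (g := fun u => max (Pool.Agent.V8H71.MS.lP a b u) 0) (K := 0)
        (Pool.Agent.V8H71.MS.lP_meas.max measurable_const) (fun u => le_max_right _ _)
        (fun w hw => ?_) (Eventually.of_forall fun u => ?_) hs
      · have h1 := h (w - Θ) (by linarith)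
        rw [show (fun x : ℝ => max (Real.log (P a b x)) 0 * x ^ (-1 - Θ - (w - Θ))) =
          fun x : ℝ => max (Real.log (P a b x)) 0 * x ^ (-1 - w) by funext x; congr 2; ring] at h1
        rw [hA1 _ (fun u => max (Pool.Agent.V8H71.MS.lP a b u) 0) _ fun u => by rw [hP]] at h1
        exact h1
      · rw [zero_mul, add_zero]
        exact le_max_left _ _
    tfae_finish
  · tfae_have 1 → 2 := by
      intro hz
      obtain ⟨C, -, h⟩ := Pool.Agent.V8H71.MS.wbound hΔ hF' hf' hr hz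
      refine ⟨C, fun X hX => ?_⟩
      rw [hB2 X hX]
      exact (h _ (Real.log_le_log (by norm_num) hX)).2
    tfae_have 2 → 3 := by
      rintro ⟨C, h⟩ κ hκ
      rw [hB1]
      refine Pool.Agent.V8H71.MS.wint' (C := C) (fun t ht => ⟨?_, ?_⟩) hκ
      · obtain ⟨M, hM⟩ := Pool.Agent.V8H71.MS.Es_loc (a := a) (b := b) (F := F) (r := r) t
        refine Pool.Agent.V8H71.MS.bdd_int (M := (|t| * M) ^ 2)
          ((measurable_id.mul Pool.Agent.V8H71.MS.Es_meas).pow_const 2) fun u h1 h2 => ?_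
        have hu0 : 0 < u := Pool.Agent.V8H71.MS.log2_pos.trans h1
        rw [abs_of_nonneg (sq_nonneg _), ← sq_abs]
        refine pow_le_pow_left₀ (abs_nonneg _) ?_ 2
        rw [Pi.mul_apply, id_eq, abs_mul]
        refine mul_le_mul ?_ (hM u h1 h2) (abs_nonneg _) (abs_nonneg _)
        rw [abs_of_pos hu0, abs_of_pos (hu0.trans_le h2)]
        exact h2
      · have h1 := h (Real.exp t) (by
          rw [← Real.exp_log (show (0 : ℝ) < 2 by norm_num)]
          exact Real.exp_le_exp.2 ht)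
        rw [hB2 _ (by
          rw [← Real.exp_log (show (0 : ℝ) < 2 by norm_num)]
          exact Real.exp_le_exp.2 ht), Real.log_exp] at h1
        exact h1
    tfae_have 3 → 4 := fun h => ⟨0, h 0 one_pos⟩
    tfae_have 4 → 1 := by
      rintro ⟨κ, h⟩ s hs
      rw [hB1] at h
      exact Pool.Agent.V8H71.MS.free_of_wint hF' h hs
    tfae_have 1 → 5 := by
      intro hz
      rw [hC2, T_eq]
      exact Pool.Agent.V8H71.MS.Ep_sq hΔ hrs hF' hf' hr hz
    tfae_have 5 → 1 := by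
      intro h s hs
      rw [hC2] at h
      exact Pool.Agent.V8H71.MS.free_of_mean hF'
        (Pool.Agent.V8H71.MS.mv_abs Pool.Agent.V8H71.MS.Ep_meas
          (fun U => Pool.Agent.V8H71.MS.Ep_loc U) h) hs
    tfae_finish
  · tfae_have 2 → 1 := by
      intro h
      rw [hC2] at h
      rw [hC1]
      exact Pool.Agent.V8H71.MS.mv_abs Pool.Agent.V8H71.MS.Ep_meas
          (fun U => Pool.Agent.V8H71.MS.Ep_loc U) h
    tfae_have 1 → 3 := by
      intro h
      rw [hC1] at h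
      have h1 := Pool.Agent.V8H71.MS.mean_unique hΔ hrs hF' hf' hr hA h
      rw [← T_eq] at h1
      exact h1
    tfae_have 3 → 2 := by
      rintro ⟨hz, rfl, rfl⟩
      rw [hC2, T_eq]
      exact Pool.Agent.V8H71.MS.Ep_sq hΔ hrs hF' hf' hr hz
    tfae_finish

end Pool.Agent.Results.MP_3283e1_nt.MeanSquareBSD
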