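import Pool.Agent.V8H22.BSW.B1
import Pool.Agent.TH941.Newform

/-!
# The product of Birch and Swinnerton-Dyer in windows `[X, X^(1+δ)]`

`E : y² = x³ + a x + b` is an elliptic curve over `ℚ`, `a, b ∈ ℤ`, `N_p` is the number of points modulo `p` (with
the point at infinity) and `P(x) = ∏_{p ≤ x, p ∤ 2Δ} N_p / p`.  `F` is the entire continuation of the incomplete
`L`-series, `r = ord_{s=1} F` and `T = √2 e^{rγ} r! / |F^{(r)}(1)|` is Goldfeld's constant; `f` is the newform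
of `E`.

The original conjecture of Birch and Swinnerton-Dyer asks for `P(x) ~ A (log x)^ρ`, `ρ` the rank of `E(ℚ)`.  It is
shown that, for every `δ, ε > 0` and ALL large `X`, the window `[X, X^(1+δ)]` contains an `x` with
`P(x) ≥ (T - ε) (log x)^r` and, if `F` has no real zeros `s > 1`, an `x` with
`|P(x) / (log x)^r - T| ≤ ε`; and that each zero `s₀` of `F` with `Re s₀ > 1` forces
`P(x) ≥ exp(x^(Re s₀ - 1 - ε))` for some `x` in each such window.  Hence the theorem of Goldfeld (the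
asymptotic formula for all large `x` implies the Riemann hypothesis for `F`, `ρ = r` and `A = T`) needs the formula
only on arbitrarily sparse sequences of windows; and the one-sided bound `P(x) ≤ A (log x)^ρ` on such windows
already implies the Riemann hypothesis for `F`, `r ≤ ρ`, and `T ≤ A` if `r = ρ`.
-/

set_option autoImplicit false

namespace Pool.Agent.Results.MP_3283e1_nt.SparseWindows

open Filter Topology Classical CongruenceSubgroup UpperHalfPlane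
open scoped MatrixGroups

/-- `N_p`: the number of points of `y² = x³ + a x + b` modulo `p`, with the point at infinity. -/
noncomputable def numPoints (a b : ℤ) (p : ℕ) : ℕ :=
  Nat.card {q : ZMod p × ZMod p // q.2 ^ 2 = q.1 ^ 3 + (a : ZMod p) * q.1 + (b : ZMod p)} + 1

/-- `p` is a prime that does not divide `2 Δ`, where `Δ = -4 a³ - 27 b²`. -/
def Good (a b : ℤ) (p : ℕ) : Prop :=
  p.Prime ∧ ¬ ((p : ℤ) ∣ 2 * (-4 * a ^ 3 - 27 * b ^ 2))

/-- The original Birch and Swinnerton-Dyer product `P(x) = ∏_{p ≤ x, p ∤ 2Δ} N_p / p`. -/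
noncomputable def P (a b : ℤ) (x : ℝ) : ℝ :=
  ∏ p ∈ (Finset.range (⌊x⌋₊ + 1)).filter (Good a b), ((numPoints a b p : ℝ) / p)

/-- `F` is an entire function which for `Re s > 3/2` is the incomplete `L`-series
`∏_{p ∤ 2Δ} (1 - a_p p^{-s} + p^{1-2s})⁻¹`, `a_p = p + 1 - N_p`, of `y² = x³ + a x + b`. -/
def IsLSeries (a b : ℤ) (F : ℂ → ℂ) : Prop :=
  Differentiable ℂ F ∧ ∀ s : ℂ, (3 : ℝ) / 2 < s.re →
    HasProd (fun p : ℕ => if Good a b p then
      (1 - ((p : ℂ) + 1 - (numPoints a b p : ℂ)) * (p : ℂ) ^ (-s) + (p : ℂ) ^ (1 - 2 * s))⁻¹ else 1)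
      (F s)

/-- The `n`-th Fourier coefficient of `f`. -/
noncomputable def coef {N : ℕ} (f : CuspForm (Gamma0 N : Subgroup (GL (Fin 2) ℝ)) 2) (n : ℕ) : ℂ :=
  (qExpansion 1 f).coeff n

/-- `f ∈ S_2(Γ₀(N))` is the newform of the elliptic curve `E : y² = x³ + a x + b` of conductor `N`: the
Fourier coefficients `c(n)` of `f` are real with `c(1) = 1`, they satisfy the Hecke relations
`c(mn) = c(m) c(n)` for coprime `m`, `n` and `c(p^(j+2)) = c(p) c(p^(j+1)) - p c(p^j)` (without the last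
term if `p ∣ N`), `c(p) = a_p = p + 1 - N_p` for all primes `p ∤ 2Δ`, `|c(p)| ≤ 2 √p` for all
`p ∤ N` (Hasse) and `c(p) = 0, 1, -1` for `p ∣ N`. -/
structure IsNewformOf (a b : ℤ) (N : ℕ) (f : CuspForm (Gamma0 N : Subgroup (GL (Fin 2) ℝ)) 2) :
    Prop where
  one : coef f 1 = 1
  real : ∀ n, (coef f n).im = 0
  mul : ∀ m n : ℕ, Nat.Coprime m n → coef f (m * n) = coef f m * coef f n
  pow : ∀ p j : ℕ, p.Prime → coef f (p ^ (j + 2)) = coef f p * coef f (p ^ (j + 1)) -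
      (if p ∣ N then 0 else (p : ℂ) * coef f (p ^ j))
  points : ∀ p : ℕ, Good a b p → coef f p = (p : ℂ) + 1 - (numPoints a b p : ℂ)
  good : ∀ p : ℕ, p.Prime → ¬ p ∣ N → ‖coef f p‖ ≤ 2 * Real.sqrt p
  bad : ∀ p : ℕ, p.Prime → p ∣ N → coef f p = 0 ∨ coef f p = 1 ∨ coef f p = -1

/-- Goldfeld's constant `T = √2 e^{rγ} r! / |F^{(r)}(1)|` -/
noncomputable def T (F : ℂ → ℂ) (r : ℕ) : ℝ :=
  √2 * Real.exp (r * Real.eulerMascheroniConstant) * (r.factorial : ℝ) / ‖iteratedDeriv r F 1‖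

/-- The window `[X, X^(1+δ)]`. -/
def window (δ X : ℝ) : Set ℝ := Set.Icc X (X ^ (1 + δ))

/-- `F` has no real zeros to the right of `1`. -/
def NoRealZeros (F : ℂ → ℂ) : Prop := ∀ s : ℝ, 1 < s → F s ≠ 0

/-- `F` has no zeros with `Re s > 1`. -/
def RiemannHyp (F : ℂ → ℂ) : Prop := ∀ s : ℂ, 1 < s.re → F s ≠ 0

/-! ### Translation to the definitions of the imported files -/

variable {a b : ℤ}

theorem P_eq : P a b = Pool.Agent.W263.BSD.bsdProduct a b := by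
  funext x
  unfold P Pool.Agent.W263.BSD.bsdProduct numPoints Pool.Agent.W263.BSD.pointCount
  refine Finset.prod_congr rfl fun p _ => ?_
  push_cast
  rfl

theorem numPoints_sub (p : ℕ) : (p : ℂ) + 1 - (numPoints a b p : ℂ) =
    (p : ℂ) - (Pool.Agent.W263.BSD.pointCount a b p : ℂ) := by
  unfold numPoints Pool.Agent.W263.BSD.pointCount
  push_cast
  ring

theorem isLSeries {F : ℂ → ℂ} (hF : IsLSeries a b F) :
    Pool.Agent.W263.BSD.IsLSeries a b F := by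
  refine ⟨hF.1, fun s hs => ?_⟩
  have h := hF.2 s hs
  simp only [numPoints_sub] at h
  exact h

theorem hecke {N : ℕ} {f : CuspForm (Gamma0 N : Subgroup (GL (Fin 2) ℝ)) 2}
    (hf : IsNewformOf a b N f) : Pool.Agent.TH941.Hecke f where
  one := hf.one
  real := hf.real
  mul := hf.mul
  pow := hf.pow
  good := hf.good
  bad := fun p hp h => by
    rcases hf.bad p hp h with h1 | h1 | h1
    · have h2 : ‖coef f p‖ ≤ 1 := by rw [h1]; simp
      exact h2
    · have h2 : ‖coef f p‖ ≤ 1 := by rw [h1]; simp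
      exact h2
    · have h2 : ‖coef f p‖ ≤ 1 := by rw [h1]; simp
      exact h2

theorem hasse {N : ℕ} [NeZero N] {f : CuspForm (Gamma0 N : Subgroup (GL (Fin 2) ℝ)) 2}
    (hΔ : 4 * a ^ 3 + 27 * b ^ 2 ≠ 0) (hf : IsNewformOf a b N f) : Pool.Agent.N586.BP.Hasse a b := by
  obtain ⟨D, hD⟩ := Pool.Agent.W263.BSD.good_of_large hΔ
  refine ⟨max D N, fun p hp h => ?_⟩
  have h1 : Good a b p := hD p hp (lt_of_le_of_lt (le_max_left _ _) h)
  have h2 : ¬ p ∣ N := fun h3 => by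
    have := Nat.le_of_dvd (Nat.pos_of_ne_zero (NeZero.ne N)) h3
    have := le_max_right D N
    omega
  have h3 := hf.good p hp h2
  rw [hf.points p h1, numPoints_sub] at h3
  have h4 : ((p : ℂ) - (Pool.Agent.W263.BSD.pointCount a b p : ℂ)) =
      (((p : ℝ) - (Pool.Agent.W263.BSD.pointCount a b p : ℝ) : ℝ) : ℂ) := by push_cast; rfl
  rw [h4, Complex.norm_real, Real.norm_eq_abs] at h3
  exact h3

theorem T_eq (F : ℂ → ℂ) (r : ℕ) : T F r = Pool.Agent.N586.BP.TT F r := by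
  unfold T Pool.Agent.N586.BP.TT Pool.Agent.W263.BSD.leadAbs
  rw [div_div_eq_mul_div, mul_div_assoc', ← mul_assoc]

/-- **The product of Birch and Swinnerton-Dyer in windows.** Let `r = ord_{s=1} F` and let `T` be Goldfeld's
constant.

(1) For all `δ, ε > 0` and all large `X` there is an `x ∈ [X, X^(1+δ)]` with `P(x) ≥ (T - ε) (log x)^r`.

(2) If `F` has no real zeros `s > 1`, for all `δ, ε > 0` and all large `X` there is an `x ∈ [X, X^(1+δ)]` with
`|P(x) / (log x)^r - T| ≤ ε`.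

(3) If `F(s₀) = 0` and `Re s₀ > 1`, for all `δ, ε > 0` and all large `X` there is an `x ∈ [X, X^(1+δ)]` with
`P(x) ≥ exp(x^(Re s₀ - 1 - ε))`; if `F` has no real zeros `s > 1`, there is also an `x ∈ [X, X^(1+δ)]` with
`P(x) ≤ exp(-x^(Re s₀ - 1 - ε))`.

(4) Suppose that for each `ε > 0` there is a `δ > 0` such that for arbitrarily large `X` the one-sided inequality
`P(x) ≤ exp(x^ε)` holds in the whole window `[X, X^(1+δ)]`. Then `F` has no zeros with `Re s > 1`.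

(5) Suppose that for some `δ > 0` and real `A`, `ρ` there are arbitrarily large `X` such that the one-sided inequality
`P(x) ≤ A (log x)^ρ` holds in the whole window `[X, X^(1+δ)]`. Then `F` has no zeros with `Re s > 1`, and `r ≤ ρ`, and
`T ≤ A` if `r = ρ`.

(6) Suppose that `F` has no real zeros `s > 1` and that for some `δ, A > 0` and real `ρ` there are arbitrarily large
`X` such that `P(x) ≥ A (log x)^ρ` holds in the whole window `[X, X^(1+δ)]`. Then `F` has no zeros with `Re s > 1`,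
and `ρ ≤ r`, and `A ≤ T` if `r = ρ`.

(7) Suppose that `A > 0`, `ρ` is real, and for each `ε > 0` there is a `δ > 0` such that for arbitrarily large `X`
`|P(x) / (log x)^ρ - A| ≤ ε` in the whole window `[X, X^(1+δ)]`. Then `F` has no zeros with `Re s > 1`,
`ρ = r` and `A = T`. -/
theorem result (a b : ℤ) (hΔ : 4 * a ^ 3 + 27 * b ^ 2 ≠ 0) (F : ℂ → ℂ) (hF : IsLSeries a b F)
    (N : ℕ) [NeZero N] (f : CuspForm (Gamma0 N : Subgroup (GL (Fin 2) ℝ)) 2)
    (hf : IsNewformOf a b N f) :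
    ∃ r : ℕ, analyticOrderAt F 1 = r ∧ 0 < T F r ∧
      (∀ δ ε : ℝ, 0 < δ → 0 < ε → ∀ᶠ X : ℝ in atTop, ∃ x ∈ window δ X,
        (T F r - ε) * Real.log x ^ r ≤ P a b x) ∧
      (NoRealZeros F → ∀ δ ε : ℝ, 0 < δ → 0 < ε → ∀ᶠ X : ℝ in atTop, ∃ x ∈ window δ X,
        |P a b x / Real.log x ^ r - T F r| ≤ ε) ∧
      (∀ s₀ : ℂ, F s₀ = 0 → 1 < s₀.re → ∀ δ ε : ℝ, 0 < δ → 0 < ε →
        (∀ᶠ X : ℝ in atTop, ∃ x ∈ window δ X, Real.exp (x ^ (s₀.re - 1 - ε)) ≤ P a b x) ∧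
        (NoRealZeros F → ∀ᶠ X : ℝ in atTop, ∃ x ∈ window δ X,
          P a b x ≤ Real.exp (-x ^ (s₀.re - 1 - ε)))) ∧
      ((∀ ε : ℝ, 0 < ε → ∃ δ : ℝ, 0 < δ ∧ ∃ᶠ X : ℝ in atTop, ∀ x ∈ window δ X,
        P a b x ≤ Real.exp (x ^ ε)) → RiemannHyp F) ∧
      (∀ δ A ρ : ℝ, 0 < δ → (∃ᶠ X : ℝ in atTop, ∀ x ∈ window δ X, P a b x ≤ A * Real.log x ^ ρ) →
        RiemannHyp F ∧ r ≤ ρ ∧ (r = ρ → T F r ≤ A)) ∧
      (NoRealZeros F → ∀ δ A ρ : ℝ, 0 < δ → 0 < A →
        (∃ᶠ X : ℝ in atTop, ∀ x ∈ window δ X, A * Real.log x ^ ρ ≤ P a b x) →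
        RiemannHyp F ∧ ρ ≤ r ∧ (r = ρ → A ≤ T F r)) ∧
      (∀ A ρ : ℝ, 0 < A → (∀ ε : ℝ, 0 < ε → ∃ δ : ℝ, 0 < δ ∧ ∃ᶠ X : ℝ in atTop, ∀ x ∈ window δ X,
        |P a b x / Real.log x ^ ρ - A| ≤ ε) → RiemannHyp F ∧ ρ = r ∧ A = T F r) := by
  have hF' := isLSeries hF
  obtain ⟨r, hr⟩ := Pool.Agent.W263.BSD.order_finite hF'
  have hrs : Tendsto (Pool.Agent.W263.BSD.rsSum a b) atTop (𝓝 0) :=
    (hecke hf).rsSum_tendsto hΔ fun p hp => (hf.points p hp).trans (numPoints_sub p)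
  have hT : 0 < T F r := by
    obtain ⟨h1, -⟩ := Pool.Agent.W263.BSD.lead_limit hF'.1 hr
    rw [T_eq]
    exact Pool.Agent.V8H22.BSW.TT_pos h1
  refine ⟨r, hr, hT, fun δ ε hδ hε => ?_, fun hn δ ε hδ hε => ?_, fun s₀ h0 h1 δ ε hδ hε => ?_,
    fun h s hs => ?_, fun δ A ρ hδ h => ?_, fun hn δ A ρ hδ hA h => ?_, fun A ρ hA h => ?_⟩
  · rw [P_eq, T_eq]
    exact (Pool.Agent.V8H22.BSW.centre_win hΔ hrs hF' hr hδ hε).1
  · rw [P_eq, T_eq]
    exact Pool.Agent.V8H22.BSW.exact_win hΔ hrs (hasse hΔ hf) hF' hr hn hδ hε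
  · rw [P_eq]
    exact Pool.Agent.V8H22.BSW.large_win hF' h0 h1 hδ hε
  · rw [P_eq] at h
    exact Pool.Agent.V8H22.BSW.rh_of_windows hF' h hs
  · rw [P_eq] at h
    rw [T_eq]
    exact Pool.Agent.V8H22.BSW.upper_win hΔ hrs hF' hr hδ h
  · rw [P_eq] at h
    rw [T_eq]
    exact Pool.Agent.V8H22.BSW.lower_win hΔ hrs hF' hr hn hδ hA h
  · rw [P_eq] at h
    rw [T_eq]
    exact Pool.Agent.V8H22.BSW.asy_of_windows hΔ hrs hF' hr hA h

end Pool.Agent.Results.MP_3283e1_nt.SparseWindows
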